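import Pool.Agent.Lib.MP_7c3aa9_co.Big

open Filter Pool.Agent.Lib.MP_7c3aa9_co

namespace Pool.Agent.Results.MP_7c3aa9_co.Counterexample

/-- For every `K` there is a connected graph of treewidth two whose expansion has crosscut number
at most five and Turan number eventually at least `K * (n choose 2)`. -/
theorem result (K : ℝ) : ∃ (k : ℕ) (G : SimpleGraph (Fin k)),
    G.Connected ∧ TwLE G 2 ∧ ¬ TwLE G 1 ∧ sigma (expansion G) ≤ 5 ∧
      ∀ᶠ n : ℕ in atTop, K * (n.choose 2 : ℝ) ≤ (ex3 n (expansion G) : ℝ) :=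
  ⟨_, Gt ⌈8 * K⌉₊, Gt_connected _, Gt_tw _, Gt_not_tw _, Gt_sigma _, Gt_main K⟩

end Pool.Agent.Results.MP_7c3aa9_co.Counterexample
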